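import Pool.Agent.Helper984_CP.Lip1

/-!
# Locally bi-Lipschitz area preserving actions with a bounded invariant set

Any genus: the Euler number is zero, so the Milnor-Wood inequality holds.
-/

set_option autoImplicit false

open Pool.Agent.Helper984_CP MeasureTheory

namespace Pool.Agent.Results.MP_cbfcf7_gt.BoundedInvariantSet

theorem result (L : List IsoPair)
    -- the relation of the surface group of genus `L.length`
    (hL : ∀ x, word L 1 x = x)
    -- the generators and their inverses are locally Lipschitz
    (hlip : ∀ I ∈ L, LocallyLipschitz (fun x => I.F (1, x)) ∧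
      LocallyLipschitz (fun x => I.Fi (1, x)) ∧ LocallyLipschitz (fun x => I.G (1, x)) ∧
      LocallyLipschitz (fun x => I.Gi (1, x)))
    -- the generators preserve the area
    (hm : ∀ I ∈ L, MeasurePreserving (fun x => I.F (1, x)) ∧
      MeasurePreserving (fun x => I.G (1, x)))
    -- and a bounded set of positive area
    (B : Set ℂ) (hB : MeasurableSet B) (hb : Bornology.IsBounded B) (hpos : volume B ≠ 0)
    (hinv : ∀ I ∈ L, (fun x => I.F (1, x)) ⁻¹' B = B ∧ (fun x => I.G (1, x)) ⁻¹' B = B) (k : ℤ) :
    EulerIs L k ↔ k = 0 :=
  euler_lip hL hlip hm hB hb hpos hinv k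

end Pool.Agent.Results.MP_cbfcf7_gt.BoundedInvariantSet
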