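import Pool.Agent.Helper984_CP.Surf

/-!
# Measure preserving actions of surface groups with commuting handles have Euler number zero

In particular the Milnor-Wood inequality holds for every area preserving action of `ℤ²` on the
plane (genus one, where the two generators commute).
-/

set_option autoImplicit false

open Pool.Agent.Helper984_CP MeasureTheory

namespace Pool.Agent.Results.MP_cbfcf7_gt.CommutingHandles

theorem result (L : List IsoPair)
    -- the two generators of every handle commute (in genus one this is the surface relation)
    (hc : ∀ I ∈ L, ∀ x, I.F (1, I.G (1, x)) = I.G (1, I.F (1, x)))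
    -- and preserve a locally finite measure which is not supported on a point, such as the area
    (hμ : ∀ I ∈ L, ∃ (μ : Measure ℂ) (_ : IsLocallyFiniteMeasure μ), (∀ c : ℂ, μ {c}ᶜ ≠ 0) ∧
      MeasurePreserving (fun x => I.F (1, x)) μ μ ∧
      MeasurePreserving (fun x => I.G (1, x)) μ μ) (k : ℤ) :
    EulerIs L k ↔ k = 0 :=
  euler_surface_iff hc hμ k

end Pool.Agent.Results.MP_cbfcf7_gt.CommutingHandles
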