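import Pool.Agent.Helper984_CP.Meas2

/-!
# Differentiable actions preserving a compactly supported measure have Euler number zero

Any genus. The measure may be the area on a bounded invariant set of positive area.
-/

set_option autoImplicit false

open Pool.Agent.Helper984_CP MeasureTheory

namespace Pool.Agent.Results.MP_cbfcf7_gt.CompactMeasure

theorem result (L : List IsoPair)
    -- the relation of the surface group of genus `L.length`
    (hL : ∀ x, word L 1 x = x)
    -- a finite measure carried by a compact set and not by a point, for instance the area on a
    -- bounded invariant set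
    (μ : Measure ℂ) [IsFiniteMeasure μ] (K : Set ℂ) (hK : IsCompact K) (hμK : μ Kᶜ = 0)
    (hμ : ∀ c : ℂ, μ {c}ᶜ ≠ 0)
    -- the generators preserve the measure
    (hm : ∀ I ∈ L, MeasurePreserving (fun x => I.F (1, x)) μ μ ∧
      MeasurePreserving (fun x => I.G (1, x)) μ μ)
    -- the generators are differentiable with positive Jacobian at the points of `K`
    (hd : ∀ I ∈ L, PosC1 (fun x => I.F (1, x)) K ∧ PosC1 (fun x => I.G (1, x)) K) (k : ℤ) :
    EulerIs L k ↔ k = 0 :=
  euler_compact_iff hK hμK hμ hL hm hd k

end Pool.Agent.Results.MP_cbfcf7_gt.CompactMeasure
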